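import Mathlib

namespace Pool.Agent.Results.MP_48fb2a_lc.Unbounded

open Set Sum

/-- the word is accepted from the given state by the NFA with accepting states `F` and transitions `δ` -/
def Acc {Q S : Type} (F : Set Q) (δ : Set (Q × S × Q)) : List S → Q → Prop
  | [], p => p ∈ F
  | a :: w, p => ∃ q, (p, a, q) ∈ δ ∧ Acc F δ w q

/-- some NFA with exactly `s` states and `m` transitions recognises `L` -/
def Has {S : Type} (L : Set (List S)) (s m : ℕ) : Prop :=
  ∃ (Q : Type) (_ : Finite Q) (q : Q) (F : Set Q) (δ : Set (Q × S × Q)),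
    L = {w | Acc F δ w q} ∧ Nat.card Q = s ∧ δ.ncard = m

noncomputable def nsc {S : Type} (L : Set (List S)) : ℕ := sInf {s | ∃ m, Has L s m}
noncomputable def tc {S : Type} (L : Set (List S)) : ℕ := sInf {m | ∃ s, Has L s m}
noncomputable def T {S : Type} (L : Set (List S)) : ℕ := sInf {s | Has L s (tc L)}

variable {Q : Type}

lemma upper {k N t : ℕ} (F : Set Q) (δ : Set (Q × Fin k × Q)) (f : Fin N × Fin t → Q) (c : f.Surjective)
    (p : Fin N × Fin t) : tc {w | Acc F δ w (f p)} ≤ N * t * k * k * N + k * N * 2 ^ t * t + N * t * k := by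
  obtain ⟨A, hA⟩ : ∃ A : (Fin N × Fin t) × Fin k × Fin k × Fin N → _, A = fun x => ((some (inl x.1), x.2.1,
    some (inr (x.2.2.1, x.2.2.2, {i | Acc {f (x.2.2.2, i)} δ [x.2.1, x.2.2.1] (f x.1)}))) :
      Option ((Fin N × Fin t) ⊕ Fin k × Fin N × Set (Fin t)) × Fin k × Option _) := ⟨_, rfl⟩
  obtain ⟨B, hB⟩ : ∃ B : Fin k × Fin N × Set (Fin t) × Fin t → _, B = fun x => ((some (inr (x.1, x.2.1, x.2.2.1)), x.1,
    some (inl (x.2.1, x.2.2.2))) : Option ((Fin N × Fin t) ⊕ Fin k × Fin N × Set (Fin t)) × Fin k × Option _) := ⟨_, rfl⟩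
  obtain ⟨C, hC⟩ : ∃ C : (Fin N × Fin t) × Fin k → _, C = fun x => ((some (inl x.1), x.2, none) :
      Option ((Fin N × Fin t) ⊕ Fin k × Fin N × Set (Fin t)) × Fin k × Option _) := ⟨_, rfl⟩
  refine (Nat.sInf_le (s := {m | ∃ s, Has {w | Acc F δ w (f p)} s m}) ⟨_, _, inferInstance, some (inl p),
    insert none ((fun x => some (inl x)) '' (f ⁻¹' F)),
    range A ∪ B '' {x | x.2.2.2 ∈ x.2.2.1} ∪ C '' {x | Acc F δ [x.2] (f x.1)}, ?_, rfl, rfl⟩).trans ?_
  · ext w
    simp only [mem_ofPred_eq]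
    induction w using List.twoStepInduction generalizing p with
    | nil => simp [Acc]
    | singleton a =>
      refine ⟨fun x => ⟨none, Or.inr ⟨(p, a), x, by rw [hC]⟩, Or.inl rfl⟩, ?_⟩
      rintro ⟨q, (⟨y, x⟩ | ⟨y, _, x⟩) | ⟨y, u, x⟩, z⟩ <;> simp only [hA, hB, hC, Prod.mk.injEq] at x
      · simp [Acc, ← x.2.2] at z
      · simp at x
      · simp at x; rwa [← x.1, ← x.2.1]
    | cons_cons a b w ih _ =>
      constructor
      · rintro ⟨q', x', q, x, y⟩
        obtain ⟨⟨j, i⟩, rfl⟩ := c q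
        exact ⟨_, Or.inl (Or.inl ⟨(p, a, b, j), by rw [hA]⟩), _, Or.inl (Or.inr
          ⟨(b, j, {i | Acc {f (j, i)} δ [a, b] (f p)}, i), ⟨q', x', _, x, rfl⟩, by rw [hB]⟩), (ih _).1 y⟩
      · rintro ⟨q, x, r, y, z⟩
        simp only [hA, hB, hC, mem_union, mem_range, mem_image, mem_ofPred_eq, Prod.mk.injEq] at x y
        rcases x with (⟨⟨p', a', b', j⟩, x, rfl, rfl⟩ | ⟨_, _, x, _⟩) | ⟨_, _, _, _, rfl⟩
        · rcases y with (⟨_, y, _⟩ | ⟨⟨b'', j', U, i⟩, u, y, rfl, rfl⟩) | ⟨_, _, y, _⟩ <;> simp at x y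
          obtain ⟨rfl, rfl, rfl⟩ := y
          subst x
          obtain ⟨q', x', q, x, rfl⟩ := u
          exact ⟨q', x', _, x, (ih _).2 z⟩
        · simp at x
        · simp at y
  · refine (ncard_union_le _ _).trans (add_le_add ((ncard_union_le _ _).trans (add_le_add ?_ ?_)) ?_)
    · rw [← image_univ]; exact (ncard_image_le).trans (by simp [mul_assoc])
    · exact (ncard_image_le).trans ((ncard_le_card _).trans (by simp [mul_assoc]))
    · exact (ncard_image_le).trans ((ncard_le_card _).trans (by simp [mul_assoc]))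

lemma count {k s τ : ℕ} {ι : Type} [Fintype ι] (K : ι → Set (List (Fin k))) (i : K.Injective)
    (h : ∀ x, ∃ s' ≤ s, ∃ j ≤ τ, Has (K x) s' j) {x : ℝ} (x0 : 0 ≤ x) (x1 : x ≤ 1) :
    Fintype.card ι * x ^ τ ≤ s * (2 ^ s * (x + 1) ^ (s * (k * s))) := by
  classical
  have : ∀ y, ∃ c : Fin s × Finset (Fin s) × Finset (Fin s × Fin k × Fin s),
      K y = {w | Acc c.2.1 c.2.2 w c.1} ∧ c.2.2.card ≤ τ := fun y => by
    obtain ⟨s', l, j, l', Q, _, q, F, δ, e, n, m⟩ := h y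
    have := Fintype.ofFinite Q
    obtain ⟨g⟩ := Function.Embedding.nonempty_of_card_le (α := Q) (β := Fin s)
      (by rwa [← Nat.card_eq_fintype_card, n, Fintype.card_fin])
    obtain ⟨D, hD⟩ : ∃ D, D = (fun y : Q × Fin k × Q => (g y.1, y.2.1, g y.2.2)) '' δ := ⟨_, rfl⟩
    refine ⟨(g q, (toFinite (g '' F)).toFinset, (toFinite D).toFinset), ?_, ?_⟩
    · have : ∀ w q, Acc F δ w q ↔ Acc (g '' F) D w (g q) := fun w => by
        induction w with
        | nil => simp [Acc]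
        | cons a w ih =>
          intro q
          refine ⟨fun ⟨r, x, y⟩ => ⟨_, hD ▸ ⟨(q, a, r), x, rfl⟩, (ih r).1 y⟩, fun ⟨r, x, y⟩ => ?_⟩
          obtain ⟨⟨q', a', r'⟩, u, z⟩ := hD ▸ x
          obtain ⟨rfl, rfl, rfl⟩ : q' = q ∧ a' = a ∧ g r' = r := by simpa using z
          exact ⟨r', u, (ih _).2 y⟩
      simp only [e, this, Finite.coe_toFinset]
    · rw [← ncard_eq_toFinset_card, hD]; exact (ncard_image_le).trans (m.le.trans l')
  choose c hc l using this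
  have ci : c.Injective := fun x y e => i (by rw [hc, hc, e])
  calc _ = ∑ _y : ι, x ^ τ := by simp
    _ ≤ ∑ y, x ^ (c y).2.2.card := Finset.sum_le_sum fun y _ => pow_le_pow_of_le_one x0 x1 (l y)
    _ = ∑ z ∈ Finset.univ.map ⟨c, ci⟩, x ^ z.2.2.card := by simp
    _ ≤ ∑ z : Fin s × Finset (Fin s) × Finset (Fin s × Fin k × Fin s), x ^ z.2.2.card :=
      Finset.sum_le_sum_of_subset_of_nonneg (Finset.subset_univ _) fun _ _ _ => by positivity
    _ = _ := by
      have := Fintype.sum_pow_mul_eq_add_pow (Fin s × Fin k × Fin s) x 1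
      simp only [one_pow, mul_one] at this
      simp [Fintype.sum_prod_type, this]

theorem result (C : ℕ) : ∃ L : Set (List (Fin 2)), (∃ s m, Has L s m) ∧ C * nsc L < T L := by
  by_contra! H
  obtain ⟨r, hr⟩ : ∃ r, r = 64 * C ^ 2 + 1 := ⟨_, rfl⟩
  obtain ⟨t, ht⟩ : ∃ t, t = 128 * r := ⟨_, rfl⟩
  obtain ⟨u, hu⟩ : ∃ u, u = 8 * ((4 * 2 ^ t + 4) * r + 4 * C) + 1 := ⟨_, rfl⟩
  obtain ⟨n, hn⟩ : ∃ n, n = u * t := ⟨_, rfl⟩
  have un : u ≤ n := hn ▸ Nat.le_mul_of_pos_right _ (by omega)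
  have : NeZero n := ⟨by omega⟩
  obtain ⟨δ, hδ⟩ : ∃ δ : Finset (ZMod n × ZMod n) → Set ((Bool × ZMod n) × Fin 2 × Bool × ZMod n), δ = fun M =>
    {x | (x.2.1 = 0 ∧ x.2.2 = (x.1.1, x.1.2 + 1)) ∨ (x.2.1 = 1 ∧ x.1.1 = false ∧ x.2.2.1 = true ∧ (x.1.2, x.2.2.2) ∈ M)} :=
    ⟨_, rfl⟩
  obtain ⟨K, hK⟩ : ∃ K : _ → Set (List (Fin 2)), K = fun M => {w | Acc {(true, (0 : ZMod n))} (δ M) w (false, 0)} :=
    ⟨_, rfl⟩
  have a : ∀ M w s (r : ℕ) x, Acc {(true, (0 : ZMod n))} (δ M) (List.replicate r 0 ++ w) (s, x) ↔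
      Acc {(true, 0)} (δ M) w (s, x + r) := fun M w s r => by
    induction r with
    | zero => simp
    | succ r ih =>
      intro x
      rw [Nat.cast_succ, add_comm _ (1 : ZMod n), ← add_assoc, ← ih]
      simp [List.replicate_succ, Acc, hδ]
  have q : ∀ M i l, List.replicate i.val 0 ++ 1 :: List.replicate (-l).val 0 ∈ K M ↔ (i, l) ∈ M := fun M i l => by
    have := fun s x => a M [] s (-l).val x
    simp only [List.append_nil] at this
    simp only [hK, mem_ofPred_eq, a, Acc, this]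
    simp [hδ, add_neg_eq_zero]
  obtain ⟨f⟩ : Nonempty (Fin (2 * u) × Fin t ≃ Bool × ZMod n) := Finite.card_eq.1 (by simp [hn, mul_assoc])
  have r0 : (0 : ℝ) < r := by exact_mod_cast (by omega : 0 < r)
  have := count (s := C * (2 * n)) (τ := 16 * n * u + (4 * 2 ^ t + 4) * n) K
    (fun M M' e => by ext ⟨i, l⟩; rw [← q, e, q]) (fun M => by
      have b : Has (K M) (2 * n) (δ M).ncard := ⟨_, inferInstance, _, _, _, by rw [hK], by simp, rfl⟩
      have c : ∃ s, Has (K M) s (tc (K M)) := Nat.sInf_mem (s := {m | ∃ s, Has (K M) s m}) ⟨_, _, b⟩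
      refine ⟨_, (H _ ⟨_, _, b⟩).trans (Nat.mul_le_mul_left _ (Nat.sInf_le ⟨_, b⟩)), _, ?_, Nat.sInf_mem c⟩
      have := upper {(true, 0)} (δ M) f f.surjective (f.symm (false, 0))
      rw [f.apply_symm_apply] at this
      rw [hK]
      exact this.trans (by rw [hn]; exact le_of_eq (by ring))) (x := 1 / r) (by positivity)
      (by rw [div_le_one r0]; exact_mod_cast (by omega : 1 ≤ r))
  generalize hs : C * (2 * n) = s at this
  generalize hτ : 16 * n * u + (4 * 2 ^ t + 4) * n = τ at this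
  have e1 : Real.exp (1 / 2) ≤ 2 := by
    have := Real.exp_one_lt_d9
    have : Real.exp (1 / 2) * Real.exp (1 / 2) = Real.exp 1 := by rw [← Real.exp_add]; norm_num
    nlinarith [Real.exp_pos (1 / 2)]
  have e2 : Real.exp (-r) ≤ 1 / r := by
    rw [Real.exp_neg, one_div]; exact inv_anti₀ r0 (by linarith [Real.add_one_le_exp (r : ℝ)])
  have e3 : Real.exp ((n * n : ℕ) * (1 / 2) + τ * -r) ≤ Real.exp (s + (s * 1 + (s * (2 * s) : ℕ) * (1 / r))) := by
    simp only [Real.exp_add, Real.exp_nat_mul]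
    refine le_trans ?_ (this.trans ?_)
    · simp only [Fintype.card_finset, Fintype.card_prod, ZMod.card, Nat.cast_pow, Nat.cast_ofNat]
      gcongr
    · gcongr
      · linarith [Real.add_one_le_exp (s : ℝ)]
      · linarith [Real.add_one_le_exp (1 : ℝ)]
      · exact Real.add_one_le_exp _
  rw [Real.exp_le_exp] at e3
  have e4 : ((s * (2 * s) : ℕ) : ℝ) * (1 / r) ≤ n * n / 8 := by
    rw [mul_one_div, div_le_div_iff₀ r0 (by norm_num)]
    exact_mod_cast (by rw [← hs, hr]; nlinarith [Nat.zero_le (n * n)] : s * (2 * s) * 8 ≤ n * n * r)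
  have e5 : 8 * (τ * r + 2 * s) < 2 * (n * n) := by
    have : 8 * (τ * r + 2 * s) = n * (u * t) + n * (8 * ((4 * 2 ^ t + 4) * r + 4 * C)) := by
      rw [← hτ, ← hs]; nth_rewrite 2 [ht]; ring
    rw [this, ← hn, two_mul]
    exact Nat.add_lt_add_left (Nat.mul_lt_mul_of_pos_left (by omega) (by omega)) _
  have e6 : (8 * (τ * r + 2 * s) : ℝ) < 2 * (n * n) := by exact_mod_cast e5
  push_cast at e3 e4
  nlinarith [mul_self_nonneg (n : ℝ)]

end Pool.Agent.Results.MP_48fb2a_lc.Unbounded
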